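import Pool.Agent.Helper2K9.SQ.Full

/-!
# Almost all integers are the sum of a prime and one of the largest possible squares

The question is whether every large even `n` which is not a square is `n = p + m²` with `p` prime. We show for almost all
`n` that the number of representations predicted by Hardy and Littlewood exists already among the `A log n` largest integers
`m ≤ √n`, so with primes `p` of size only `√n log n`, and that this is the right order of magnitude.

From the starting files: the theorems of Siegel and Walfisz, the prime number theorem and Mertens' theorem, through the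
files `Pool.Agent.Helper82K9.PR` on random polynomials: for `n = M² + b`, `0 ≤ b ≤ 2 M`, the number
`n - (M + 1 - t)² = (b - 2 M) + 2 M t - (t - 1)²` is a value at `t` of the linear polynomial `(b - 2 M) + 2 M t`, up to the
fixed summand `-(t - 1)²`; and a bound for the tail of the constant for almost all `n` (`Pool.Agent.R460.SC`). Nothing is
used besides Mathlib in the statement.
-/

set_option autoImplicit false

namespace Pool.Agent.Results.MP_d48457_nt.LargestSquares

open Finset Filter Topology

open Classical in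
/-- The number of the integers `1 ≤ n ≤ N` with the property `F`. -/
noncomputable def number (N : ℕ) (F : ℕ → Prop) : ℝ := (((Icc 1 N).filter F).card : ℝ)

/-- The number of the primes among the numbers `n - m²`, where `m` runs over the `y` largest integers `m ≤ √n`. -/
def reps (n y : ℕ) : ℕ := ((Ioc (Nat.sqrt n - y) (Nat.sqrt n)).filter (fun m => (n - m ^ 2).Prime)).card

/-- The product of `1 - (n / p) / (p - 1)` over the primes `3 ≤ p ≤ z`, `(n / p)` the Legendre symbol. -/
noncomputable def partialS (n z : ℕ) : ℝ := ∏ p ∈ (Icc 3 z).filter Nat.Prime, (1 - (jacobiSym n p : ℝ) / (p - 1))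

/-- `S` is the constant of Hardy and Littlewood for `n = p + m²`: the products over the primes, in increasing order,
converge to `S`. -/
def IsS (n : ℕ) (S : ℝ) : Prop := Tendsto (partialS n) atTop (𝓝 S)

lemma number_le (N : ℕ) (F G : ℕ → Prop) [DecidablePred G] (h : ∀ n, F n → G n) :
    number N F ≤ (((Icc 1 N).filter G).card : ℝ) := by
  classical
  unfold number
  exact Nat.cast_le.2 (card_le_card fun n hn => mem_filter.2 ⟨(mem_filter.1 hn).1, h n (mem_filter.1 hn).2⟩)

lemma number_or (N : ℕ) (F G H : ℕ → Prop) (h : ∀ n ∈ Icc 1 N, F n → G n ∨ H n) : number N F ≤ number N G + number N H := by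
  classical
  unfold number
  rw [← Nat.cast_add]
  apply Nat.cast_le.2
  refine (card_le_card ?_).trans (card_union_le _ _)
  intro n hn
  rw [mem_filter] at hn
  rw [mem_union, mem_filter, mem_filter]
  rcases h n hn.1 hn.2 with h1 | h1
  · exact Or.inl ⟨hn.1, h1⟩
  · exact Or.inr ⟨hn.1, h1⟩

/-- Let `B` and `ε > 0` be given. There are `c > 0`, `C > 0` and `A` such that for all `N ≥ A` and all `x` with
`A log N ≤ x ≤ (log N) ^ B` the following holds for all `n ≤ N` with at most `ε N` exceptions:

* the product `S` of the `1 - (n / p) / (p - 1)`, `p ≥ 3`, converges and is positive, and for all `y ≤ x` the number of the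
  primes among the `n - m²`, `m` the `y` largest integers `m ≤ √n`, times `(log N) / 2`, is `S y` up to an error `ε x`, and
* there are primes `p` for which `n - p` is a square, and the least such prime `p` satisfies
  `c √n log n ≤ p ≤ C √n log n`. -/
theorem result (B : ℕ) (ε : ℝ) (hε : 0 < ε) : ∃ c C : ℝ, 0 < c ∧ 0 < C ∧ ∃ A : ℕ,
    ∀ N : ℕ, A ≤ N → ∀ x : ℕ, A * Real.log N ≤ x → (x : ℝ) ≤ Real.log N ^ B →
      number N (fun n =>
        ¬ ((∃ S : ℝ, 0 < S ∧ IsS n S ∧ ∀ y ≤ x, |reps n y * (Real.log N / 2) - S * y| ≤ ε * x) ∧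
          ∃ p : ℕ, IsLeast {p : ℕ | p.Prime ∧ ∃ m : ℕ, n = p + m ^ 2} p ∧
            c * (√n * Real.log n) ≤ p ∧ p ≤ C * (√n * Real.log n))) ≤ ε * N := by
  classical
  obtain ⟨A, g⟩ := Pool.Agent.Helper2K9.SQ.partF B (ε / 2) (by positivity)
  obtain ⟨c, C, hc, hC, N₀, h⟩ := Pool.Agent.Helper2K9.SQ.partC (ε / 2) (by positivity)
  refine ⟨c, C, hc, hC, A + N₀, fun N hN x hx1 hx2 => ?_⟩
  have hlog0 : 0 ≤ Real.log N := Real.log_natCast_nonneg N
  have hx1' : (A : ℝ) * Real.log N ≤ x := by
    refine le_trans (mul_le_mul_of_nonneg_right ?_ hlog0) hx1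
    exact_mod_cast (by omega : A ≤ A + N₀)
  have k1 := g N (by omega) x hx1' hx2
  have k2 := h N (by omega)
  refine (number_or N _ (fun n : ℕ => ¬ ∃ C : ℝ, 0 < C ∧ Tendsto (fun z : ℕ => Pool.Agent.Helper2K9.SQ.HL n z) atTop (𝓝 C) ∧
        ∀ y ≤ x, |Pool.Agent.Helper2K9.SQ.reps n y * (Real.log N / 2) - C * y| ≤ ε / 2 * x)
    (fun n : ℕ => ¬ ∃ p : ℕ, IsLeast (Pool.Agent.Helper2K9.SQ.Reps n) p ∧ c * (√n * Real.log n) ≤ p ∧
      p ≤ C * (√n * Real.log n)) (fun n hn1 hn => ?_)).trans ?_
  · by_contra hcon
    push Not at hcon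
    apply hn
    obtain ⟨S, hS0, hS, h1⟩ := hcon.1
    refine ⟨⟨S, hS0, hS, fun y hy => ?_⟩, hcon.2⟩
    refine (h1 y hy).trans ?_
    apply mul_le_mul_of_nonneg_right _ (Nat.cast_nonneg _)
    linarith
  · calc _ ≤ ε / 2 * N + ε / 2 * N := add_le_add ((number_le N _ _ (fun n hn => hn)).trans k1)
          ((number_le N _ _ (fun n hn => hn)).trans k2)
      _ = ε * N := by ring

end Pool.Agent.Results.MP_d48457_nt.LargestSquares
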