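import Pool.Agent.Helper24K9.EM.Fu
import Pool.Agent.Helper24K9.EM.PL

set_option autoImplicit false

/-!
# The values of a quadratic polynomial as sums of a prime and a square

Let `F(j) = r² j² + B j + C` be any quadratic polynomial whose leading coefficient is a square and which is not a
perfect square itself (`B² ≠ 4 r² C`), for instance `j² + c`, `c ≠ 0`, `4 j² + 2` or `(2 j + 1)² + 1` (even values).
For a positive proportion of the `j ≤ J` the number `n = F(j)` is a sum of a prime and a square. More precisely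
the number of the representations `n = p + m²` with `r j - x ≤ m < r j - u` is at least

`θ 𝔖(n) ∑ 1 / log (n - m²)`, `𝔖(n) = ∏_{p ≥ 3} (1 - (n / p) / (p - 1))`,

for every fixed `θ < 1`, which is (apart from `θ`) the number which Hardy and Littlewood predict, uniformly for
`log J ≤ x ≤ J / (log J)^Q`. The numbers `F(j)` form a set with about `√X` elements below `X`, and the known
bounds for the number of the exceptions to the conjecture say nothing about such a set.

Proof: with `m = r j - t` we have `n - m² = (2 r t + B) j + C - t²`, which is linear in `j`. The first moment over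
`j` is given by the theorem of Bombieri and Vinogradov for the moduli `2 r t + B`, the second moment by the Selberg
sieve in two dimensions, and the mean value of `𝔖(F(j))`, cut at a bounded prime, is compared with the full product
for most `j` (`Pool.Agent.Helper24K9.EM`).
-/

namespace Pool.Agent.Results.MP_d48457_nt.QuadraticValues

open Finset Filter Topology

/-- The quadratic polynomial. -/
def F (r : ℕ) (B C : ℤ) (j : ℕ) : ℤ := (r : ℤ) ^ 2 * (j : ℤ) ^ 2 + B * (j : ℤ) + C

/-- The products which define `𝔖(n)`, over the primes `3 ≤ p ≤ z` (`jacobiSym n p` is the Legendre symbol). -/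
noncomputable def partialS (n : ℤ) (z : ℕ) : ℝ :=
  ∏ p ∈ (Icc 3 z).filter Nat.Prime, (1 - (jacobiSym n p : ℝ) / (p - 1))

/-- The number of the representations `n = p + m²`, `p` prime, `y ≤ m < v`. -/
noncomputable def reps (n : ℤ) (y v : ℕ) : ℕ := ((Ico y v).filter (fun m : ℕ => (n - (m : ℤ) ^ 2).toNat.Prime)).card

/-- The sum of `1 / log (n - m²)` over the `m`, `y ≤ m < v`, with `n - m² ≥ 2`. -/
noncomputable def logSum (n : ℤ) (y v : ℕ) : ℝ :=
  ∑ m ∈ (Ico y v).filter (fun m : ℕ => 2 ≤ n - (m : ℤ) ^ 2), 1 / Real.log ((n - (m : ℤ) ^ 2 : ℤ) : ℝ)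

lemma partialS_eq (n b c : ℤ) (hb : Even b) (hn : b ^ 2 - 4 * 1 * c = 4 * n) (z : ℕ) :
    2 * Pool.Agent.W468.ConjF.CF 1 b c z = partialS n z := by
  unfold Pool.Agent.W468.ConjF.CF partialS
  have h2 : ¬ (2 : ℤ) ∣ 1 + b := by
    intro h
    have h3 := even_iff_two_dvd.2 h
    have h4 : Odd (1 + b) := by
      rw [add_comm]; exact hb.add_one
    exact (Int.not_even_iff_odd.2 h4) h3
  rw [if_neg h2]
  have h1 : (range (z + 1)).filter (fun p : ℕ => p.Prime ∧ 3 ≤ p ∧ (p : ℤ) ∣ 1 ∧ (p : ℤ) ∣ b) = ∅ := by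
    apply Finset.filter_eq_empty_iff.2
    rintro p - ⟨h3, -, h4, -⟩
    have h5 : p ∣ 1 := by exact_mod_cast h4
    exact h3.one_lt.ne' (Nat.dvd_one.1 h5)
  rw [h1, prod_empty, mul_one, ← mul_assoc]
  have h6 : (2 : ℝ) * (1 / 2) = 1 := by norm_num
  rw [h6, one_mul]
  have h7 : (range (z + 1)).filter (fun p : ℕ => p.Prime ∧ 3 ≤ p ∧ ¬ (p : ℤ) ∣ 1) = (Icc 3 z).filter Nat.Prime := by
    ext p
    simp only [mem_filter, mem_range, mem_Icc]
    constructor
    · rintro ⟨h3, h4, h5, -⟩; exact ⟨⟨h5, by omega⟩, h4⟩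
    · rintro ⟨⟨h3, h4⟩, h5⟩
      refine ⟨by omega, h5, h3, fun h8 => ?_⟩
      have h9 : p ∣ 1 := by exact_mod_cast h8
      exact h5.one_lt.ne' (Nat.dvd_one.1 h9)
  rw [h7]
  apply prod_congr rfl
  intro p hp
  rw [mem_filter, mem_Icc] at hp
  have h8 : jacobiSym (b ^ 2 - 4 * 1 * c) p = jacobiSym n p := by
    rw [hn, jacobiSym.mul_left]
    have h9 : jacobiSym 4 p = 1 := by
      have h10 : (4 : ℤ) = 2 ^ 2 := by norm_num
      rw [h10]
      apply jacobiSym.sq_one'
      have h11 : Nat.Coprime 2 p := (Nat.coprime_primes Nat.prime_two hp.2).2 (by omega)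
      rw [Int.gcd_eq_natAbs]
      exact h11
    rw [h9, one_mul]
  rw [h8]

/-- **The values of quadratic polynomials as `p + m²`.** Let `F(j) = r² j² + B j + C`, `r ≥ 1`, `B² ≠ 4 r² C`. There
are `u` and `Q` such that for all `θ < 1` there are `κ > 0` and `J₀` with the following property for all `J ≥ J₀` and
all `x` with `log J ≤ x` and `x (log J)^Q ≤ J`. For at least `κ J` of the `j ≤ J` the number `n = F(j)` is not a
square, the product `𝔖(n)` converges to a number `S > 0`, and the number of the `m` with `r j - x ≤ m < r j - u` for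
which `n - m²` is prime is at least `θ S ∑ 1 / log (n - m²)` (the sum over these `m`) and at least `κ x / log J`. -/
theorem result (r : ℕ) (B C : ℤ) (hr : 0 < r) (hD : B ^ 2 ≠ 4 * (r : ℤ) ^ 2 * C) :
    ∃ u Q : ℕ, ∀ θ : ℝ, θ < 1 → ∃ κ : ℝ, 0 < κ ∧ ∃ J₀ : ℕ, ∀ J x : ℕ, J₀ ≤ J → Real.log J ≤ x →
      (x : ℝ) * Real.log J ^ Q ≤ J →
      ∃ s ⊆ Icc 1 J, κ * J ≤ s.card ∧ ∀ j ∈ s, x < r * j ∧ ¬ IsSquare (F r B C j) ∧
        ∃ S : ℝ, 0 < S ∧ Tendsto (partialS (F r B C j)) atTop (𝓝 S) ∧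
          θ * (S * logSum (F r B C j) (r * j - x) (r * j - u)) ≤ reps (F r B C j) (r * j - x) (r * j - u) ∧
          κ * x / Real.log J ≤ reps (F r B C j) (r * j - x) (r * j - u) := by
  classical
  have hr' : (0 : ℤ) < r := by exact_mod_cast hr
  let l : Pool.Agent.Helper24K9.EM.Ln := ⟨0, 2 * r, B, -1, 0, C,
    Or.inr ⟨rfl, by positivity, by norm_num⟩, by
      intro h
      apply hD
      linear_combination h⟩
  have hadm : l.Adm := by
    intro p hp
    by_cases h : (p : ℤ) ∣ C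
    · refine ⟨0, 1, ?_⟩
      intro h1
      have h2 : (p : ℤ) ∣ C - 1 := by
        have e : (0 : ℤ) * (l.α * 1 ^ 2 + l.β * 1 + l.γ) + (l.a * 1 ^ 2 + l.b * 1 + l.c) = C - 1 := by
          show (0 : ℤ) * (0 * 1 ^ 2 + 2 * (r : ℤ) * 1 + B) + (-1 * 1 ^ 2 + 0 * 1 + C) = C - 1
          ring
        rwa [e] at h1
      have h3 : (p : ℤ) ∣ 1 := by
        have := dvd_sub h h2
        have e : C - (C - 1) = 1 := by ring
        rwa [e] at this
      have h4 : p ∣ 1 := by exact_mod_cast h3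
      exact hp.one_lt.ne' (Nat.dvd_one.1 h4)
    · refine ⟨0, 0, ?_⟩
      intro h1
      apply h
      have e : (0 : ℤ) * (l.α * 0 ^ 2 + l.β * 0 + l.γ) + (l.a * 0 ^ 2 + l.b * 0 + l.c) = C := by
        show (0 : ℤ) * (0 * 0 ^ 2 + 2 * (r : ℤ) * 0 + B) + (-1 * 0 ^ 2 + 0 * 0 + C) = C
        ring
      rwa [e] at h1
  have hsg : l.sg = -1 := by
    unfold Pool.Agent.Helper24K9.EM.Ln.sg
    rw [if_pos]
    exact ⟨rfl, by show (-1 : ℤ) < 0; norm_num⟩
  obtain ⟨Q, hQ⟩ := l.rng_lin rfl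
  -- values
  have hv : ∀ k t : ℕ, t ≤ r * k → (k : ℤ) * l.G t + l.H t = F r B C k - ((r * k - t : ℕ) : ℤ) ^ 2 := by
    intro k t ht
    rw [Nat.cast_sub ht]
    push_cast
    show (k : ℤ) * (0 * (t : ℤ) ^ 2 + 2 * r * t + B) + (-1 * (t : ℤ) ^ 2 + 0 * t + C) = _
    unfold F
    ring
  refine ⟨l.t0, Q + 1, fun θ hθ => ?_⟩
  obtain ⟨κ, hκ, K₀, hfull⟩ := l.full hadm _ hQ θ hθ
  have hlog : Tendsto (fun n : ℕ => Real.log n) atTop atTop := Real.tendsto_log_atTop.comp tendsto_natCast_atTop_atTop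
  obtain ⟨J₁, hJ₁⟩ := eventually_atTop.1 ((hlog.eventually_ge_atTop (2 * r + |(B : ℝ)| + 1)).and
    ((hlog.eventually_ge_atTop (2 / κ)).and ((hlog.eventually_ge_atTop l.t0).and (eventually_ge_atTop 1))))
  refine ⟨κ, hκ, max K₀ J₁, fun J x hJ hx1 hx2 => ?_⟩
  obtain ⟨h1, h2, h3, h4⟩ := hJ₁ J ((le_max_right _ _).trans hJ)
  have hJ0 : (0 : ℝ) < J := by exact_mod_cast h4
  have hl1 : 1 ≤ Real.log J := by
    have : (0 : ℝ) ≤ r := Nat.cast_nonneg r
    have := abs_nonneg (B : ℝ)
    linarith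
  have hx0 : (1 : ℝ) ≤ x := hl1.trans hx1
  have ht0x : l.t0 ≤ x := by exact_mod_cast h3.trans hx1
  have hgx : (l.g x : ℝ) * Real.log J ^ Q ≤ J := by
    refine le_trans ?_ hx2
    have h5 : (l.g x : ℝ) ≤ x * Real.log J := by
      have h6 : ((l.g x : ℕ) : ℤ) = 2 * r * x + B := by
        rw [l.g_cast ht0x]
        show (0 : ℤ) * (x : ℤ) ^ 2 + 2 * r * x + B = _
        ring
      have h7 : (l.g x : ℝ) = 2 * r * x + B := by exact_mod_cast h6
      rw [h7]
      have h8 := le_abs_self (B : ℝ)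
      have h9 := abs_nonneg (B : ℝ)
      have h10 : |(B : ℝ)| ≤ |(B : ℝ)| * x := le_mul_of_one_le_right h9 hx0
      have h11 : (2 * r + |(B : ℝ)| + 1) * x ≤ Real.log J * x := mul_le_mul_of_nonneg_right h1 (by linarith)
      linarith
    calc (l.g x : ℝ) * Real.log J ^ Q ≤ (x * Real.log J) * Real.log J ^ Q := by gcongr
      _ = x * Real.log J ^ (Q + 1) := by ring
  have hm := hfull J ((le_max_left _ _).trans hJ) x hx1 hgx
  refine ⟨_, filter_subset _ _, hm, fun j hj => ?_⟩
  obtain ⟨hjk, hadj, C', hC', hC1, hC2, hC3⟩ := (mem_filter.1 hj).2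
  have hxj : x < r * j := by
    have h5 : (x : ℝ) < r * j := by
      have h6 : (x : ℝ) * Real.log J ≤ J := by
        refine le_trans ?_ hx2
        calc (x : ℝ) * Real.log J = x * Real.log J ^ 1 := by ring
          _ ≤ x * Real.log J ^ (Q + 1) := by
              apply mul_le_mul_of_nonneg_left _ (by linarith)
              exact pow_le_pow_right₀ hl1 (by omega)
      have h7 : (x : ℝ) * (2 / κ) ≤ J := le_trans (mul_le_mul_of_nonneg_left h2 (by linarith)) h6
      have h8 : 2 * (x : ℝ) ≤ κ * J := by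
        have h9 : (x : ℝ) * (2 / κ) = (2 * x) / κ := by ring
        rw [h9, div_le_iff₀ hκ] at h7
        linarith
      have h9 : (j : ℝ) ≤ r * j := by
        have : (1 : ℝ) ≤ r := by exact_mod_cast hr
        exact le_mul_of_one_le_left (Nat.cast_nonneg _) this
      linarith
    exact_mod_cast h5
  -- the sums over `t` and over `m`
  have himg : Ico (r * j - x) (r * j - l.t0) = (Ioc l.t0 x).image (fun t => r * j - t) := by
    ext m
    simp only [mem_Ico, mem_image, mem_Ioc]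
    constructor
    · rintro ⟨h5, h6⟩
      exact ⟨r * j - m, by omega, by omega⟩
    · rintro ⟨t, ⟨h5, h6⟩, rfl⟩
      omega
  have hinj : Set.InjOn (fun t : ℕ => r * j - t) (Ioc l.t0 x : Finset ℕ) := by
    intro t ht t' ht' h5
    rw [mem_coe, mem_Ioc] at ht ht'
    have h6 : r * j - t = r * j - t' := h5
    omega
  have eN : reps (F r B C j) (r * j - x) (r * j - l.t0) = l.NP j x := by
    unfold reps Pool.Agent.Helper24K9.EM.Ln.NP
    rw [himg, filter_image, card_image_of_injOn (hinj.mono (by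
      intro t ht
      exact (mem_filter.1 ht).1))]
    congr 1
    apply filter_congr
    intro t ht
    rw [mem_Ioc] at ht
    rw [hv j t (by omega)]
  have eL : logSum (F r B C j) (r * j - x) (r * j - l.t0) = l.LS j x := by
    unfold logSum Pool.Agent.Helper24K9.EM.Ln.LS
    rw [himg, filter_image, sum_image (hinj.mono (by
      intro t ht
      exact (mem_filter.1 ht).1))]
    have e1 : (Ioc l.t0 x).filter (fun t : ℕ => 2 ≤ F r B C j - ((r * j - t : ℕ) : ℤ) ^ 2) =
        (Ioc l.t0 x).filter (fun t : ℕ => 2 ≤ (j : ℤ) * l.G t + l.H t) := by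
      apply filter_congr
      intro t ht
      rw [mem_Ioc] at ht
      rw [hv j t (by omega)]
    rw [e1]
    apply sum_congr rfl
    intro t ht
    rw [mem_filter, mem_Ioc] at ht
    rw [hv j t (by omega)]
  have ea : l.sg * (l.a + l.α * j) = 1 := by
    rw [hsg]
    show (-1 : ℤ) * (-1 + 0 * (j : ℤ)) = 1
    ring
  have eb : l.sg * (l.b + l.β * j) = -(2 * r * j) := by
    rw [hsg]
    show (-1 : ℤ) * (0 + 2 * r * (j : ℤ)) = _
    ring
  have ec : l.sg * (l.c + l.γ * j) = -(C + B * j) := by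
    rw [hsg]
    show (-1 : ℤ) * (C + B * (j : ℤ)) = _
    ring
  rw [ea, eb, ec] at hadj hC1
  have hdisc : (-(2 * r * j : ℤ)) ^ 2 - 4 * 1 * (-(C + B * j)) = 4 * F r B C j := by
    unfold F; ring
  refine ⟨hxj, ?_, 2 * C', by positivity, ?_, ?_, ?_⟩
  · rintro ⟨y, hy⟩
    apply hadj.2.2.2
    refine ⟨2 * y, ?_⟩
    rw [hdisc, hy]; ring
  · have h5 := hC1.const_mul 2
    refine h5.congr fun z => ?_
    exact partialS_eq _ _ _ ⟨-(r * j : ℤ), by ring⟩ hdisc z
  · rw [eN, eL]
    rw [← mul_assoc]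
    exact hC2
  · rw [eN]
    exact hC3

end Pool.Agent.Results.MP_d48457_nt.QuadraticValues
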