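import Pool.Agent.Helper24K9.ES.Fin

set_option autoImplicit false

/-!
# The values of a quadratic polynomial as sums of a prime and a square from an arbitrary sparse set

Let `F(j) = r² j² + B j + C` be any quadratic polynomial whose leading coefficient is a square and which is not a
perfect square itself, for instance `j² + c`, `c ≠ 0`, `4 j² + 2` or `(2 j + 1)² + 1` (even values). We look for
representations `n = p + m²` of the numbers `n = F(j)` for which `r j - m` lies in a given set `T`, for instance in the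
set of the powers of `3`, or in any other set of positive integers `t ≤ (log J)^A`, `A` fixed, for which `2 r t + B` and
`C - t²` are coprime (a necessary condition). For at least `κ J` times the minimum of `|T| / log J` and
`1 / log log log J` of the `j ≤ J` there is such a representation, and even at least `κ |T| / log J` of them. So the
squares near `n`, which are available for the representation, may be thinned out arbitrarily.

Proof: with `m = r j - t` we have `n - m² = (2 r t + B) j + C - t²`, a linear form in `j`. Let `P` be the product of the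
primes `≤ log log J`. In a class of the `j` modulo `P` we use the `t` for which these values have no small prime
factors. The first moment follows from the theorem of Siegel and Walfisz, the second moment from a sieve in two
dimensions, in which all arithmetic factors are bounded, whatever the set `T` is (`Pool.Agent.Helper24K9.ES`).
-/

namespace Pool.Agent.Results.MP_d48457_nt.SparseSquares

open Finset

/-- The quadratic polynomial. -/
def F (r : ℕ) (B C : ℤ) (j : ℕ) : ℤ := (r : ℤ) ^ 2 * (j : ℤ) ^ 2 + B * (j : ℤ) + C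

/-- The number of the `t` in `T` for which `n - (M - t)²` is prime. -/
noncomputable def reps (n : ℤ) (M : ℤ) (T : Finset ℕ) : ℕ := (T.filter (fun t : ℕ => (n - (M - t) ^ 2).toNat.Prime)).card

/-- The number of the `t` in `T` for which `n - (M - t)²` has no prime factor `≤ z`, divided by the product of the
factors `1 - 1 / q` over the primes `q ≤ z`. -/
noncomputable def rough (n : ℤ) (M : ℤ) (T : Finset ℕ) (z : ℕ) : ℝ :=
  ((T.filter (fun t : ℕ => ∀ q : ℕ, q ≤ z → q.Prime → ¬ (q : ℤ) ∣ n - (M - t) ^ 2)).card : ℝ) /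
    ∏ q ∈ (Icc 1 z).filter Nat.Prime, (1 - 1 / (q : ℝ))

/-- **The values of quadratic polynomials as sums of a prime and a square from a sparse set.** Let
`F(j) = r² j² + B j + C`, `r ≥ 1`, `B² ≠ 4 r² C`. There is a `u` such that for all `A` and all `θ < 1` there are `κ > 0`
and `J₀` with the following property for all `J ≥ J₀` and ALL sets `T` of integers `t` with `u ≤ t ≤ (log J)^A` for which
`2 r t + B` and `C - t²` are coprime. For at least `κ · min(|T| / log J, 1 / log log log J) · J` of the `j ≤ J` the number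
of the `t` in `T` for which `F(j) - (r j - t)²` is prime is at least `κ |T| / log J` (so it is positive if `T` is not
empty) and at least `θ R / log J`, where `R` is `rough` for `z = ⌈log log J⌉`. -/
theorem result (r : ℕ) (B C : ℤ) (hr : 0 < r) (hD : B ^ 2 ≠ 4 * (r : ℤ) ^ 2 * C) :
    ∃ u : ℕ, ∀ (A : ℕ) (θ : ℝ), θ < 1 → ∃ κ : ℝ, 0 < κ ∧ ∃ J₀ : ℕ, ∀ J : ℕ, J₀ ≤ J → ∀ T : Finset ℕ,
      (∀ t ∈ T, u ≤ t ∧ (t : ℝ) ≤ Real.log J ^ A ∧ IsCoprime (2 * (r : ℤ) * t + B) (C - (t : ℤ) ^ 2)) →
      ∃ s ⊆ Icc 1 J, κ * min (T.card / Real.log J) (1 / Real.log (Real.log (Real.log J))) * J ≤ s.card ∧ ∀ j ∈ s,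
        κ * (T.card / Real.log J) ≤ reps (F r B C j) (r * j) T ∧
        θ * (rough (F r B C j) (r * j) T ⌈Real.log (Real.log J)⌉₊ / Real.log J) ≤ reps (F r B C j) (r * j) T := by
  classical
  have hr' : (0 : ℤ) < r := by exact_mod_cast hr
  let l : Pool.Agent.Helper24K9.EM.Ln := ⟨0, 2 * r, B, -1, 0, C,
    Or.inr ⟨rfl, by positivity, by norm_num⟩, by
      intro h
      apply hD
      linear_combination h⟩
  have hG : ∀ t : ℕ, l.G t = 2 * (r : ℤ) * t + B := by
    intro t
    show (0:ℤ) * (t : ℤ) ^ 2 + 2 * r * t + B = _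
    ring
  have hH : ∀ t : ℕ, l.H t = C - (t : ℤ) ^ 2 := by
    intro t
    show (-1:ℤ) * (t : ℤ) ^ 2 + 0 * t + C = _
    ring
  have hv : ∀ j t : ℕ, (j : ℤ) * l.G t + l.H t = F r B C j - ((r * j : ℤ) - t) ^ 2 := by
    intro j t
    rw [hG, hH]
    unfold F
    ring
  refine ⟨l.t0, fun A θ hθ => ?_⟩
  obtain ⟨κ, hκ, K₀, h⟩ := l.sparse' A θ hθ
  refine ⟨κ, hκ, K₀, fun J hJ T hT => ?_⟩
  have h1 := h J hJ T (fun t ht => ⟨(hT t ht).1, (hT t ht).2.1⟩) (by
    intro t ht
    rw [hG, hH]
    exact (hT t ht).2.2)
  refine ⟨_, filter_subset _ _, h1, fun j hj => ?_⟩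
  obtain ⟨h2, h3⟩ := (mem_filter.1 hj).2
  have eN : l.numP j T = reps (F r B C j) (r * j) T := by
    unfold Pool.Agent.Helper24K9.EM.Ln.numP reps
    simp only [hv]
  have eU : (l.unsieved (Pool.Agent.Helper24K9.EM.Ln.yK J) j T : ℝ) /
      Pool.Agent.W218.HF.Wz (Pool.Agent.Helper24K9.EM.Ln.yK J) =
      rough (F r B C j) (r * j) T ⌈Real.log (Real.log J)⌉₊ := by
    unfold Pool.Agent.Helper24K9.EM.Ln.unsieved Pool.Agent.W218.HF.Wz rough Pool.Agent.Helper24K9.EM.Ln.yK
    simp only [hv]
  rw [eN] at h2
  rw [eN, eU] at h3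
  exact ⟨h2, h3⟩

end Pool.Agent.Results.MP_d48457_nt.SparseSquares
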