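import Pool.Agent.Helper24K9.UQ.Fin

set_option autoImplicit false

/-!
# Values of quadratic polynomials as sums of a prime and a square, uniformly in the polynomial

For all polynomials `F(j) = r² j² + B j + C` of height at most `H` which are not perfect squares and for which the
greatest common divisor of `2 r` and `B` is bounded (for instance `j² + C` for all `0 < |C| ≤ H`, or `r² j² + B j + C`
with `r`, `B` odd and coprime and `C` even, whose values are even), a positive proportion of the `j` up to a fixed power
of `H`, in the sense of the logarithmic density, give sums `F(j) = p + m²` of a prime and a square, and even with at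
least a power of `H` representations. The proportion depends only on the bound for the greatest common divisor, and the
exponent is absolute: this is a theorem of the type of the theorem of Linnik on the least prime in a progression.

Proof: with `m = r j - t`, `t ≤ H^c`, we have `F(j) - m² = (2 r t + B) j + C - t²`. For one `t` the primes among these
values are primes in a progression whose modulus is a power of their size, so we use the lower bound of Linnik for the
primes in progressions whose modulus is not a multiple of an exceptional modulus `q₁`; no assumption on the zeros of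
`L`-functions is made. The `t` are chosen such that `2 r t + B` is not divisible by a large prime power divisor of `q₁`,
and well distributed modulo the product `P` of all other primes `≤ c log H`. The second moment over the `j` of the number
of representations has the right order of magnitude: in each class modulo `P` all arithmetic factors in the sieve bound
for pairs are bounded, and the mean square over the classes can be computed from local counts.
-/

namespace Pool.Agent.Results.MP_d48457_nt.UniformLinnikRange

open Finset

/-- The quadratic polynomial. -/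
def F (r : ℕ) (B C : ℤ) (j : ℕ) : ℤ := (r : ℤ) ^ 2 * (j : ℤ) ^ 2 + B * (j : ℤ) + C

/-- The number of the representations `n = p + m²` with a prime `p` and `m ≥ 0` (then `m ≤ n`). -/
noncomputable def reps (n : ℤ) : ℕ := ((range (n.toNat + 1)).filter (fun m : ℕ => (n - (m : ℤ) ^ 2).toNat.Prime)).card

/-- **Values of quadratic polynomials as sums of a prime and a square, uniformly in the polynomial.** There is a `D`, and
for every `G` there are `κ > 0` and `Z₀`, such that for all `Z ≥ Z₀`, all `H` with `H^1000 ≤ Z` and ALL polynomials
`F(j) = r² j² + B j + C` with `1 ≤ r ≤ H`, `|B| ≤ H`, `|C| ≤ H`, `B² ≠ 4 r² C` and `gcd(2 r, B) ≤ G`: the sum of `1 / j`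
over the `j` with `√Z < j ≤ Z^D` for which `F(j)` has at least `Z^(1/2000)` representations as the sum of a prime and
a square is at least `κ log Z`. -/
theorem result : ∃ D : ℕ, 1 ≤ D ∧ ∀ G : ℕ, ∃ κ : ℝ, 0 < κ ∧ ∃ Z₀ : ℕ, ∀ Z H : ℕ, Z₀ ≤ Z → H ^ 1000 ≤ Z →
    ∀ (r : ℕ) (B C : ℤ), 1 ≤ r → r ≤ H → |B| ≤ H → |C| ≤ H → B ^ 2 ≠ 4 * (r : ℤ) ^ 2 * C →
    Int.gcd (2 * (r : ℤ)) B ≤ G →
    ∃ s ⊆ Ioc (Nat.sqrt Z) (Z ^ D), κ * Real.log Z ≤ ∑ j ∈ s, 1 / (j : ℝ) ∧
      ∀ j ∈ s, (Z : ℝ) ^ (1 / 2000 : ℝ) ≤ reps (F r B C j) := by
  classical
  obtain ⟨D, hD, h⟩ := Pool.Agent.Helper24K9.UQ.uniform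
  refine ⟨D, hD, fun G => ?_⟩
  obtain ⟨κ, hκ, Z₀, h⟩ := h G
  refine ⟨κ, hκ, max Z₀ 1, fun Z H hZ hH r B C hr hrH hB hC hdisc hgcd => ?_⟩
  have hB' : B.natAbs ≤ H := by
    have := hB
    rw [← Int.natCast_natAbs] at this
    exact_mod_cast this
  have hC' : C.natAbs ≤ H := by
    have := hC
    rw [← Int.natCast_natAbs] at this
    exact_mod_cast this
  have h1 := h Z ((le_max_left _ _).trans hZ) H hH r B C hr hrH hB' hC' hdisc hgcd
  refine ⟨_, filter_subset _ _, h1, fun j hj => ?_⟩
  have h2 := (mem_filter.1 hj).2
  have hZ0 : (0:ℝ) < Z := by exact_mod_cast ((le_max_right _ _).trans hZ : 1 ≤ Z)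
  rw [Real.rpow_def_of_pos hZ0, mul_comm]
  exact h2

end Pool.Agent.Results.MP_d48457_nt.UniformLinnikRange
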